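import Pool.Agent.Q180.Skula

/-!
# Canonical clopen selectors on final-subset spaces of well-founded posets of finite width
-/

set_option autoImplicit false

open Set

universe u

namespace Pool.Agent.Results.MP_ad9ced_gt.FiniteWidth

open Pool.Agent.Q180.Skula

/-- For every well-founded poset `P` of finite width (a union of finitely many chains), and more
generally for every well-founded poset `P` without infinite antichains, the compact Hausdorff space
`FS(P)` of final subsets is canonically Skula. -/
theorem result :
    (∀ (P : Type u) [PartialOrder P], WellFounded (fun x y : P => x < y) →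
      (∃ (n : ℕ) (C : Fin n → Set P), (∀ i, IsChain (fun x y => x ≤ y) (C i)) ∧
        ∀ p : P, ∃ i, p ∈ C i) →
      CompactSpace (FS P) ∧ T2Space (FS P) ∧ CanonicallySkula (FS P)) ∧
    ∀ (P : Type u) [PartialOrder P], WellFounded (fun x y : P => x < y) →
      (∀ s : Set P, IsAntichain (fun x y => x ≤ y) s → s.Finite) →
      CompactSpace (FS P) ∧ T2Space (FS P) ∧ CanonicallySkula (FS P) := by
  constructor
  · rintro P _ hwf ⟨n, C, hC, hcov⟩
    refine ⟨inferInstance, inferInstance, canonicallySkula (wqo_of_narrow hwf ?_)⟩
    intro s hs
    choose c hc using hcov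
    refine Set.Finite.of_injOn (f := c) (t := univ) (fun _ _ => mem_univ _) ?_ finite_univ
    intro x hx y hy hxy
    by_contra hne
    have hy' : y ∈ C (c x) := by rw [hxy]; exact hc y
    rcases hC (c x) (hc x) hy' hne with h | h
    · exact hs hx hy hne h
    · exact hs hy hx (Ne.symm hne) h
  · intro P _ hwf hnarrow
    exact ⟨inferInstance, inferInstance, canonicallySkula (wqo_of_narrow hwf hnarrow)⟩

end Pool.Agent.Results.MP_ad9ced_gt.FiniteWidth
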